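import Pool.Agent.H45.EGH.S3

/-!
# EGH: PR4, a coprime pencil
-/

set_option autoImplicit false

namespace Pool.EGH

open MvPolynomial Module

/-- The products of the two bases. -/
theorem pr4_prod {K A : Type} [Field K] [CommRing A] [Algebra K A] {C U : Submodule K A}
    (e : Basis (Fin 3) K C) (v : Basis (Fin 4) K U)
    (h1 : ∀ i j : Fin 3, (e i : A) * (v j.castSucc : A) = e j * v i.castSucc)
    (h2 : ∀ i j : Fin 3, (e i : A) * (v j.succ : A) = e j * v i.succ) :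
    (e 1 : A) * v 0 = e 0 * v 1 ∧ (e 2 : A) * v 0 = e 0 * v 2 ∧ (e 1 : A) * v 1 = e 0 * v 2 ∧
    (e 2 : A) * v 1 = e 0 * v 3 ∧ (e 1 : A) * v 2 = e 0 * v 3 ∧ (e 2 : A) * v 2 = e 1 * v 3 := by
  have a1 := h1 1 0
  have a2 := h1 2 0
  have a3 := h1 2 1
  have b1 := h2 1 0
  have b2 := h2 2 0
  have b3 := h2 2 1
  have c0 : (0 : Fin 3).castSucc = (0 : Fin 4) := rfl
  have c1 : (1 : Fin 3).castSucc = (1 : Fin 4) := rfl
  have c2 : (2 : Fin 3).castSucc = (2 : Fin 4) := rfl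
  have s0 : (0 : Fin 3).succ = (1 : Fin 4) := rfl
  have s1 : (1 : Fin 3).succ = (2 : Fin 4) := rfl
  have s2 : (2 : Fin 3).succ = (3 : Fin 4) := rfl
  rw [c0, c1] at a1
  rw [c0, c2] at a2
  rw [c1, c2] at a3
  rw [s0, s1] at b1
  rw [s0, s2] at b2
  rw [s1, s2] at b3
  exact ⟨a1, a2, b1, b2, a3.symm.trans b2, b3⟩

/-- The six products are independent. -/
theorem pr4_li (hop : HOPStmt) {K A : Type} [Field K] [IsAlgClosed K] [CommRing A] [Algebra K A]
    {C U : Submodule K A} (e : Basis (Fin 3) K C) (v : Basis (Fin 4) K U)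
    (h1 : ∀ i j : Fin 3, (e i : A) * (v j.castSucc : A) = e j * v i.castSucc)
    (h2 : ∀ i j : Fin 3, (e i : A) * (v j.succ : A) = e j * v i.succ)
    (hkf : ∀ c ∈ C, ∀ x ∈ U, c * x = 0 → c = 0 ∨ x = 0) :
    LinearIndependent K ![(e 0 : A) * v 0, (e 0 : A) * v 1, (e 0 : A) * v 2, (e 0 : A) * v 3,
      (e 1 : A) * v 3, (e 2 : A) * v 3] := by
  classical
  obtain ⟨r1, r2, r3, r4, r5, r6⟩ := pr4_prod e v h1 h2
  obtain ⟨P, hP⟩ : ∃ P : Fin 6 → A, P = ![(e 0 : A) * v 0, (e 0 : A) * v 1, (e 0 : A) * v 2,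
    (e 0 : A) * v 3, (e 1 : A) * v 3, (e 2 : A) * v 3] := ⟨_, rfl⟩
  rw [← hP, linearIndependent_iff_card_le_finrank_span, Fintype.card_fin]
  by_contra hcon
  push Not at hcon
  obtain ⟨W, hW⟩ : ∃ W : Submodule K A, W = Submodule.span K (Set.range P) := ⟨_, rfl⟩
  have hWf : finrank K W < 6 := by
    rw [hW]
    exact hcon
  have hPW : ∀ s, P s ∈ W := fun s => by
    rw [hW]
    exact Submodule.subset_span ⟨s, rfl⟩
  have : Module.Finite K W := by
    rw [hW]
    exact FiniteDimensional.span_of_finite K (Set.finite_range P)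
  have hmem : ∀ i j, (e i : A) * v j ∈ W := by
    intro i j
    have p0 := hPW 0
    have p1 := hPW 1
    have p2 := hPW 2
    have p3 := hPW 3
    have p4 := hPW 4
    have p5 := hPW 5
    rw [hP] at p0 p1 p2 p3 p4 p5
    change (e 0 : A) * v 0 ∈ W at p0
    change (e 0 : A) * v 1 ∈ W at p1
    change (e 0 : A) * v 2 ∈ W at p2
    change (e 0 : A) * v 3 ∈ W at p3
    change (e 1 : A) * v 3 ∈ W at p4
    change (e 2 : A) * v 3 ∈ W at p5
    fin_cases i <;> fin_cases j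
    · exact p0
    · exact p1
    · exact p2
    · exact p3
    · exact r1 ▸ p1
    · exact r3 ▸ p2
    · exact r5 ▸ p3
    · exact p4
    · exact r2 ▸ p2
    · exact r4 ▸ p3
    · exact r6 ▸ p4
    · exact p5
  have hmul : ∀ (c : C) (x : U), (c : A) * (x : A) ∈ W := by
    intro c x
    have hc : (c : A) = ∑ i, e.repr c i • (e i : A) := by
      conv_lhs => rw [← e.sum_repr c]
      rw [Submodule.coe_sum]
      rfl
    have hx : (x : A) = ∑ j, v.repr x j • (v j : A) := by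
      conv_lhs => rw [← v.sum_repr x]
      rw [Submodule.coe_sum]
      rfl
    rw [hc, hx, Finset.sum_mul_sum]
    refine Submodule.sum_mem _ fun i _ => Submodule.sum_mem _ fun j _ => ?_
    rw [smul_mul_smul_comm]
    exact Submodule.smul_mem _ _ (hmem i j)
  have : Module.Finite K C := Module.Finite.of_basis e
  have : Module.Finite K U := Module.Finite.of_basis v
  have hC3 : finrank K C = 3 := by rw [finrank_eq_card_basis e, Fintype.card_fin]
  have hU4 : finrank K U = 4 := by rw [finrank_eq_card_basis v, Fintype.card_fin]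
  obtain ⟨c, x, hc, hx, hcx⟩ := hop K C U W
    (LinearMap.mk₂ K (fun (c : C) (x : U) => (⟨(c : A) * x, hmul c x⟩ : W))
      (fun c c' x => Subtype.ext (by
        show ((c + c' : C) : A) * x = c * x + c' * x
        rw [Submodule.coe_add, add_mul]))
      (fun a c x => Subtype.ext (by
        show ((a • c : C) : A) * x = a • ((c : A) * x)
        rw [Submodule.coe_smul, smul_mul_assoc]))
      (fun c x x' => Subtype.ext (by
        show (c : A) * ((x + x' : U) : A) = c * x + c * x'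
        rw [Submodule.coe_add, mul_add]))
      (fun a c x => Subtype.ext (by
        show (c : A) * ((a • x : U) : A) = a • ((c : A) * x)
        rw [Submodule.coe_smul, mul_smul_comm])))
    (by omega) (by omega) (by omega)
  have h3 : (c : A) * x = 0 := congrArg (Subtype.val : W → A) hcx
  rcases hkf c c.2 x x.2 h3 with h4 | h4
  · exact hc (Subtype.ext h4)
  · exact hx (Subtype.ext h4)

/-- The pencil, abstract form. -/
theorem pr4_abs (hop : HOPStmt) {K A : Type} [Field K] [IsAlgClosed K] [CommRing A] [Algebra K A]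
    {C U : Submodule K A} (e : Basis (Fin 3) K C) (v : Basis (Fin 4) K U)
    (h1 : ∀ i j : Fin 3, (e i : A) * (v j.castSucc : A) = e j * v i.castSucc)
    (h2 : ∀ i j : Fin 3, (e i : A) * (v j.succ : A) = e j * v i.succ)
    (hkf : ∀ c ∈ C, ∀ x ∈ U, c * x = 0 → c = 0 ∨ x = 0) {u : A} (hu : u ∈ U) (hu0 : u ≠ 0) :
    ∃ g ∈ U, ∃ g' ∈ U, (∀ a b d : K, a • g + b • g' + d • u = 0 → a = 0 ∧ b = 0 ∧ d = 0) ∧
      ∀ c ∈ C, ∀ c' ∈ C, c * g + c' * g' = 0 → c = 0 ∧ c' = 0 := by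
  classical
  obtain ⟨r1, r2, r3, r4, r5, r6⟩ := pr4_prod e v h1 h2
  have hli := Fintype.linearIndependent_iff.1 (pr4_li hop e v h1 h2 hkf)
  -- independence in coordinates
  have hP : ∀ a0 a1 a2 a3 a4 a5 : K, a0 • ((e 0 : A) * v 0) + a1 • ((e 0 : A) * v 1) +
      a2 • ((e 0 : A) * v 2) + a3 • ((e 0 : A) * v 3) + a4 • ((e 1 : A) * v 3) +
      a5 • ((e 2 : A) * v 3) = 0 → a0 = 0 ∧ a1 = 0 ∧ a2 = 0 ∧ a3 = 0 ∧ a4 = 0 ∧ a5 = 0 := by
    intro a0 a1 a2 a3 a4 a5 h
    have h3 := hli ![a0, a1, a2, a3, a4, a5] (by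
      rw [Fin.sum_univ_six]
      exact h)
    exact ⟨h3 0, h3 1, h3 2, h3 3, h3 4, h3 5⟩
  have hc : ∀ c ∈ C, ∃ x0 x1 x2 : K, c = x0 • (e 0 : A) + x1 • (e 1 : A) + x2 • (e 2 : A) := by
    intro c hc
    refine ⟨e.repr ⟨c, hc⟩ 0, e.repr ⟨c, hc⟩ 1, e.repr ⟨c, hc⟩ 2, ?_⟩
    have h3 := congrArg (Subtype.val : C → A) (e.sum_repr ⟨c, hc⟩)
    rw [Fin.sum_univ_three] at h3
    exact h3.symm
  have hv : ∀ a0 a1 a2 a3 : K, a0 • (v 0 : A) + a1 • (v 1 : A) + a2 • (v 2 : A) +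
      a3 • (v 3 : A) = 0 → a0 = 0 ∧ a1 = 0 ∧ a2 = 0 ∧ a3 = 0 := by
    intro a0 a1 a2 a3 h
    have h3 := Fintype.linearIndependent_iff.1 v.linearIndependent ![a0, a1, a2, a3] (by
      rw [Fin.sum_univ_four]
      exact Subtype.ext h)
    exact ⟨h3 0, h3 1, h3 2, h3 3⟩
  obtain ⟨y0, y1, y2, y3, hy⟩ : ∃ y0 y1 y2 y3 : K,
      u = y0 • (v 0 : A) + y1 • (v 1 : A) + y2 • (v 2 : A) + y3 • (v 3 : A) := by
    refine ⟨v.repr ⟨u, hu⟩ 0, v.repr ⟨u, hu⟩ 1, v.repr ⟨u, hu⟩ 2, v.repr ⟨u, hu⟩ 3, ?_⟩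
    have h3 := congrArg (Subtype.val : U → A) (v.sum_repr ⟨u, hu⟩)
    rw [Fin.sum_univ_four] at h3
    exact h3.symm
  by_cases c1 : y1 = 0 ∧ y2 = 0
  · by_cases c2 : y0 = 0
    · -- `u` is a multiple of `v 3`
      obtain ⟨c1, c1'⟩ := c1
      subst c1 c1' c2
      have hy3 : y3 ≠ 0 := by
        rintro rfl
        refine hu0 ?_
        rw [hy]
        simp only [zero_smul, add_zero]
      refine ⟨v 0, (v 0).2, v 2 + v 3, add_mem (v 2).2 (v 3).2, fun a b d h => ?_,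
        fun c hcC c' hcC' h => ?_⟩
      · have h3 := hv a 0 b (b + d * y3) (by
          rw [hy] at h
          rw [← h]
          simp only [zero_smul, add_smul, smul_add, mul_smul, add_zero, zero_add]
          abel)
        obtain ⟨k1, -, k2, k3⟩ := h3
        refine ⟨k1, k2, ?_⟩
        rw [k2, zero_add] at k3
        exact (mul_eq_zero.1 k3).resolve_right hy3
      · obtain ⟨x0, x1, x2, rfl⟩ := hc c hcC
        obtain ⟨z0, z1, z2, rfl⟩ := hc c' hcC'
        have h3 := hP x0 x1 (x2 + z0) (z0 + z1) (z1 + z2) z2 (by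
          rw [← h]
          simp only [add_mul, mul_add, smul_mul_assoc, r1, r2, r3, r4, r5, r6, add_smul]
          abel)
        obtain ⟨k0, k1, k2, k3, k4, k5⟩ := h3
        rw [k5, add_zero] at k4
        rw [k4, add_zero] at k3
        rw [k3, add_zero] at k2
        rw [k0, k1, k2, k3, k4, k5]
        simp only [zero_smul, add_zero, and_self]
    · -- `u` in `<v 0, v 3>`, not a multiple of `v 3`
      obtain ⟨c1, c1'⟩ := c1
      subst c1 c1'
      refine ⟨v 0 + v 1, add_mem (v 0).2 (v 1).2, v 3, (v 3).2, fun a b d h => ?_,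
        fun c hcC c' hcC' h => ?_⟩
      · have h3 := hv (a + d * y0) a 0 (b + d * y3) (by
          rw [hy] at h
          rw [← h]
          simp only [zero_smul, add_smul, smul_add, mul_smul, add_zero]
          abel)
        obtain ⟨k1, k2, -, k3⟩ := h3
        rw [k2, zero_add] at k1
        have k4 := (mul_eq_zero.1 k1).resolve_right c2
        rw [k4, zero_mul, add_zero] at k3
        exact ⟨k2, k3, k4⟩
      · obtain ⟨x0, x1, x2, rfl⟩ := hc c hcC
        obtain ⟨z0, z1, z2, rfl⟩ := hc c' hcC'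
        have h3 := hP x0 (x0 + x1) (x1 + x2) (x2 + z0) z1 z2 (by
          rw [← h]
          simp only [add_mul, mul_add, smul_mul_assoc, r1, r2, r3, r4, r5, r6, add_smul]
          abel)
        obtain ⟨k0, k1, k2, k3, k4, k5⟩ := h3
        rw [k0, zero_add] at k1
        rw [k1, zero_add] at k2
        rw [k2, zero_add] at k3
        rw [k0, k1, k2, k3, k4, k5]
        simp only [zero_smul, add_zero, and_self]
  · -- `u` not in `<v 0, v 3>`
    refine ⟨v 0, (v 0).2, v 3, (v 3).2, fun a b d h => ?_, fun c hcC c' hcC' h => ?_⟩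
    · have h3 := hv (a + d * y0) (d * y1) (d * y2) (b + d * y3) (by
        rw [hy] at h
        rw [← h]
        simp only [add_smul, smul_add, mul_smul]
        abel)
      obtain ⟨k1, k2, k3, k4⟩ := h3
      have k5 : d = 0 := by
        by_contra hd
        exact c1 ⟨(mul_eq_zero.1 k2).resolve_left hd, (mul_eq_zero.1 k3).resolve_left hd⟩
      rw [k5, zero_mul, add_zero] at k1 k4
      exact ⟨k1, k4, k5⟩
    · obtain ⟨x0, x1, x2, rfl⟩ := hc c hcC
      obtain ⟨z0, z1, z2, rfl⟩ := hc c' hcC'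
      have h3 := hP x0 x1 x2 z0 z1 z2 (by
        rw [← h]
        simp only [add_mul, smul_mul_assoc, r1, r2, r3, r4, r5, r6]
        abel)
      obtain ⟨k0, k1, k2, k3, k4, k5⟩ := h3
      rw [k0, k1, k2, k3, k4, k5]
      simp only [zero_smul, add_zero, and_self]

/-- Two independent elements. -/
theorem pr4_two {K M : Type} [Field K] [AddCommMonoid M] [Module K M] (T : Submodule K M)
    (h : 2 ≤ finrank K T) : ∃ τ₁ ∈ T, ∃ τ₂ ∈ T,
      ∀ s t : K, s • τ₁ + t • τ₂ = 0 → s = 0 ∧ t = 0 := by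
  obtain ⟨f, hf⟩ := exists_linearIndependent_of_le_finrank h
  rw [Fintype.linearIndependent_iffₛ] at hf
  refine ⟨f 0, (f 0).2, f 1, (f 1).2, fun s t hst => ?_⟩
  have h3 := hf ![s, t] ![0, 0] (by
    rw [Fin.sum_univ_two, Fin.sum_univ_two]
    refine Subtype.ext ?_
    show s • (f 0 : M) + t • (f 1 : M) = (0 : K) • (f 0 : M) + (0 : K) • (f 1 : M)
    rw [hst, zero_smul, zero_smul, add_zero])
  exact ⟨h3 0, h3 1⟩

/-- **PR4.** -/
theorem t_pr4 (hcnt : CNTStmt) (hkro : KROStmt) (hstr : STRStmt) (hop : HOPStmt) : PR4Stmt := by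
  classical
  intro K _ _ Q U u w C hD
  obtain ⟨τ₁, hτ₁, τ₂, hτ₂, hind⟩ := pr4_two (TT C U) (hcnt K Q U u w C hD)
  obtain ⟨-, hC1, hC3, -⟩ := hstr K Q U u w C hD
  have hU4 := hD.c4.dim
  have hkf : ∀ c ∈ C, ∀ x ∈ U, c * x = 0 → c = 0 ∨ x = 0 := fun c hc x hx h =>
    hD.c4.kf c (hC1 hc) x hx h
  -- nonzero elements of `TT` are injective
  have hinj : ∀ τ ∈ TT C U, τ ≠ 0 → ∀ c : C, τ c = 0 → c = 0 := by
    intro τ hτ hτ0 c hc
    by_contra hc0
    refine hτ0 (LinearMap.ext fun c' => Subtype.ext ?_)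
    have h3 : (c : PR K 6 ⧸ Q) * (τ c' : PR K 6 ⧸ Q) = c' * (τ c : PR K 6 ⧸ Q) := hτ c c'
    rw [hc, Submodule.coe_zero, mul_zero] at h3
    rcases hkf c c.2 _ (Subtype.prop _) h3 with h4 | h4
    · exact absurd (Subtype.ext h4) hc0
    · exact h4
  obtain ⟨e, v, hev⟩ := hkro K C U hC3 hU4 τ₁ τ₂ (by
    intro s t c h
    by_cases hst : s • τ₁ + t • τ₂ = 0
    · exact Or.inr (hind s t hst)
    · exact Or.inl (hinj _ (add_mem (Submodule.smul_mem _ s hτ₁) (Submodule.smul_mem _ t hτ₂))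
        hst c h))
  refine pr4_abs hop e v (fun i j => ?_) (fun i j => ?_) hkf hD.hu hD.u0
  · have h3 : (e i : PR K 6 ⧸ Q) * (τ₁ (e j) : PR K 6 ⧸ Q) =
      e j * (τ₁ (e i) : PR K 6 ⧸ Q) := hτ₁ (e i) (e j)
    rwa [(hev j).1, (hev i).1] at h3
  · have h3 : (e i : PR K 6 ⧸ Q) * (τ₂ (e j) : PR K 6 ⧸ Q) =
      e j * (τ₂ (e i) : PR K 6 ⧸ Q) := hτ₂ (e i) (e j)
    rwa [(hev j).2, (hev i).2] at h3

end Pool.EGH
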